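import Pool.Agent.H85.EqK5

namespace Pool.Agent.Results.MP_3c1a79_gt.Contractible

set_option linter.unusedSectionVars false

open MeasureTheory Measure Set
open scoped unitInterval InnerProductSpace

/-- equivariant contractibility of a space `Y` on which `G` acts (no continuity of the action) -/
def EquivContractible {G Y : Type*} [TopologicalSpace Y] (a : G → Y → Y) : Prop :=
  ∃ (y0 : Y) (h : I × Y → Y), (∀ g, a g y0 = y0) ∧ Continuous h ∧ (∀ y, h (0, y) = y) ∧
    (∀ y, h (1, y) = y0) ∧ ∀ t g y, h (t, a g y) = a g (h (t, y))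

section
variable {G : Type*} (H : Type*) [NormedAddCommGroup H] [InnerProductSpace ℂ H] [CompleteSpace H]

/-- the unitary group `U(H)` -/
def UGrp : Type _ := unitary (H →L[ℂ] H)

/-- the operator norm topology on `U(H)` -/
noncomputable instance : TopologicalSpace (UGrp H) :=
  (inferInstance : TopologicalSpace (unitary (H →L[ℂ] H)))

noncomputable instance : Group (UGrp H) := (inferInstance : Group (unitary (H →L[ℂ] H)))

variable {H}

/-- the conjugation action `g · T = π_g T π_g^* = π_g T π_g⁻¹` on `U(H)` -/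
noncomputable def conj (π : G → UGrp H) (g : G) (T : UGrp H) : UGrp H := π g * T * (π g)⁻¹

/-- `A` is a unitary operator -/
def IsU (A : H →L[ℂ] H) : Prop := A ∈ unitary (H →L[ℂ] H)

/-- a unitary operator as an element of `U(H)` -/
def mkU (A : H →L[ℂ] H) (h : IsU A) : UGrp H := ⟨A, h⟩

end

variable {G : Type*} [Group G] [TopologicalSpace G] [IsTopologicalGroup G] [MeasurableSpace G]
  [BorelSpace G] (μ : Measure G) [μ.IsMulLeftInvariant]
  (E : Type*) [NormedAddCommGroup E] [InnerProductSpace ℂ E] [CompleteSpace E]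

/-- `π_g = λ_g ⊗ 1` on `L²(G) ⊗ E = L²(G; E)`, that is `(π_g f)(x) = f(g⁻¹ x)` -/
noncomputable def reg (g : G) : Lp E 2 μ →L[ℂ] Lp E 2 μ :=
  (Lp.compMeasurePreservingₗᵢ ℂ (fun x => g⁻¹ * x)
    (measurePreserving_mul_left μ g⁻¹)).toContinuousLinearMap

lemma reg_one : reg μ E 1 = 1 := by
  ext1 h
  have : (fun z : G => (1 : G)⁻¹ * z) = id := by ext; simp
  change Lp.compMeasurePreserving _ _ h = h
  simp only [this]
  exact Lp.compMeasurePreserving_id_apply h

lemma reg_mul (a b : G) : reg μ E (a * b) = reg μ E a * reg μ E b := by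
  ext1 h
  change Lp.compMeasurePreserving _ _ h =
    Lp.compMeasurePreserving _ _ (Lp.compMeasurePreserving _ _ h)
  rw [← Lp.compMeasurePreserving_comp_apply]
  congr 2
  ext z; simp [mul_assoc]

lemma reg_mem (g : G) : IsU (reg μ E g) := by
  have hu : IsUnit (reg μ E g) := ⟨⟨reg μ E g, reg μ E g⁻¹,
    by rw [← reg_mul, mul_inv_cancel, reg_one], by rw [← reg_mul, inv_mul_cancel, reg_one]⟩, rfl⟩
  refine hu.mem_unitary_of_star_mul_self ?_
  ext1 x
  apply ext_inner_left ℂ
  intro y
  rw [mul_apply_eq_comp, ContinuousLinearMap.star_eq_adjoint,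
    ContinuousLinearMap.adjoint_inner_right]
  exact LinearIsometry.inner_map_map _ y x

/-- the representation `π` with values in `U(H)` -/
noncomputable def regU (g : G) : UGrp (Lp E 2 μ) := mkU (reg μ E g) (reg_mem μ E g)

/-- `U(L²(G) ⊗ E)` with the conjugation action is equivariantly contractible -/
def UnitaryContractible : Prop := EquivContractible (conj (regU μ E))

variable {E}

lemma inner_comp (A B : E →L[ℂ] E) (f k : Lp E 2 μ) :
    ⟪A.compLpL 2 μ f, B.compLpL 2 μ k⟫_ℂ = ∫ x, ⟪A (f x), B (k x)⟫_ℂ ∂μ := by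
  rw [L2.inner_def]
  refine integral_congr_ae ?_
  filter_upwards [A.coeFn_compLpL f, B.coeFn_compLpL k] with x h1 h2
  rw [h1, h2]

lemma star_comp (A B : E →L[ℂ] E) (C : Lp E 2 μ →L[ℂ] Lp E 2 μ)
    (h : ∀ f k : Lp E 2 μ, ∫ x, ⟪A (f x), B (k x)⟫_ℂ ∂μ = ⟪f, C k⟫_ℂ) :
    star (A.compLpL 2 μ) * B.compLpL 2 μ = C := by
  ext1 x
  apply ext_inner_left ℂ
  intro y
  rw [mul_apply_eq_comp, ContinuousLinearMap.star_eq_adjoint,
    ContinuousLinearMap.adjoint_inner_right, inner_comp, h]

lemma reg_comp (A : E →L[ℂ] E) (g : G) :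
    reg μ E g * A.compLpL 2 μ = A.compLpL 2 μ * reg μ E g := by
  ext1 f
  apply Lp.ext
  have hm := measurePreserving_mul_left μ g⁻¹
  filter_upwards [Lp.coeFn_compMeasurePreserving (A.compLpL 2 μ f) hm,
    hm.quasiMeasurePreserving.ae (A.coeFn_compLpL f), A.coeFn_compLpL (reg μ E g f),
    Lp.coeFn_compMeasurePreserving f hm] with x h1 h2 h3 h4
  exact (h1.trans h2).trans ((congrArg A h4).symm.trans h3.symm)

lemma main [CompactSpace G] [T2Space G] [SecondCountableTopology G] [IsHaarMeasure μ]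
    [IsProbabilityMeasure μ] (b : HilbertBasis ℕ ℂ E) : UnitaryContractible μ E := by
  have : TopologicalSpace.SeparableSpace E := by
    rw [← TopologicalSpace.isSeparable_univ_iff]
    have h1 := ((countable_range b).isSeparable.span (R := ℂ)).closure
    rwa [← Submodule.topologicalClosure_coe, b.dense_span] at h1
  have : Fact ((2 : ENNReal) ≠ ⊤) := ⟨by simp⟩
  have : Nontrivial (Lp E 2 μ) := by
    refine ⟨⟨Lp.const 2 μ (b 0), 0, fun h => ?_⟩⟩
    have := congrArg norm h
    rw [Lp.norm_const' _ _ _ (by simp) (by simp), b.orthonormal.1 0] at this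
    simp at this
  let u : G →* unitary (Lp E 2 μ →L[ℂ] Lp E 2 μ) :=
    { toFun := fun g => ⟨reg μ E g, reg_mem μ E g⟩
      map_one' := Subtype.ext (reg_one μ E)
      map_mul' := fun a b => Subtype.ext (reg_mul μ E a b) }
  obtain ⟨ρ, τ, hρτ⟩ := H85.EqK.exists_st b
  obtain ⟨h, h1, h2, h3, h4⟩ := H85.EqK.kuiper u (fun v => by
      let k : G → C(G, G) := fun g => ⟨fun x => g⁻¹ * x, by fun_prop⟩
      have hk : Continuous k := ContinuousMap.continuous_of_continuous_uncurry _
        (show Continuous fun p : G × G => p.1⁻¹ * p.2 by fun_prop)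
      exact (continuous_const (y := v)).compMeasurePreservingLp hk
        (fun g => measurePreserving_mul_left μ g⁻¹) (by simp))
    (s := ρ.toContinuousLinearMap.compLpL 2 μ) (t := τ.toContinuousLinearMap.compLpL 2 μ)
    (star_comp μ _ _ _ fun f k => by simp [L2.inner_def])
    (star_comp μ _ _ _ fun f k => by simp [L2.inner_def])
    (star_comp μ _ _ _ fun f k => by simp [hρτ]) (fun g => reg_comp μ _ g) (fun g => reg_comp μ _ g)
  exact ⟨1, h, fun g => by simp [conj], h1, h2, h3, h4⟩

theorem result {G : Type*} [Group G] [TopologicalSpace G] [IsTopologicalGroup G] [CompactSpace G]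
    [T2Space G] [SecondCountableTopology G] [MeasurableSpace G] [BorelSpace G] (μ : Measure G)
    [IsHaarMeasure μ] [IsProbabilityMeasure μ] :
    UnitaryContractible μ (lp (fun _ : ℕ => ℂ) 2) :=
  main μ (HilbertBasis.ofRepr (LinearIsometryEquiv.refl ℂ _))

end Pool.Agent.Results.MP_3c1a79_gt.Contractible
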